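import Mathlib
import Pool.Agent.T2H12.KM.Defs4

/-!
# The decomposition after a dilation (package SCALE)
-/

set_option autoImplicit false

namespace Pool.Agent.T2H12.KN

open Finset
open scoped Classical
open Pool.Agent.Y359.PE Pool.Agent.T2H12.KF Pool.Agent.T2H12.KD Pool.Agent.T2H12.KG
open Pool.Agent.T2H12.KH Pool.Agent.T2H12.KM

lemma gp_mul {P : Finset ℕ} {x y : ℤ} (hx : x ≠ 0) (hy : y ≠ 0) :
    gp P (x * y) = gp P x * gp P y := by
  unfold gp
  rw [← Nat.cast_mul, ← prod_mul_distrib]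
  congr 1
  refine prod_congr rfl fun p _ => ?_
  rw [fa_mul hx hy, pow_add]

lemma gq_mul {P : Finset ℕ} (hP : ∀ p ∈ P, p.Prime) {x y : ℤ} (hx : x ≠ 0) (hy : y ≠ 0) :
    gq P (x * y) = gq P x * gq P y := by
  have h1 := eq_gp_mul_gq hP hx
  have h2 := eq_gp_mul_gq hP hy
  have h3 := eq_gp_mul_gq hP (mul_ne_zero hx hy)
  have h4 := gp_pos hP (x * y)
  apply mul_left_cancel₀ h4.ne'
  rw [← h3, gp_mul hx hy]
  conv_lhs => rw [h1, h2]
  ring

/-- **The decomposition after a dilation.** -/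
theorem scale (P : Finset ℕ) (hP : ∀ p ∈ P, p.Prime) (A : Finset ℤ) (h0 : (0 : ℤ) ∉ A)
    (b : ℤ → ℤ) (hb : ∀ a ∈ A, b a ≠ 0)
    (hdet : ∀ a ∈ A, ∀ a' ∈ A, (∀ p ∈ P, fa a p = fa a' p) → b a = b a') :
    ∃ (N : ℤ) (γ G : ℤ → ℤ), N ≠ 0 ∧ Dec P γ G (A.image fun a => N * a) ∧
      (∀ U ⊆ A.image fun a => N * a, ce U (gp P) γ ≤ 0) ∧
      (A.image fun a => N * a).card = A.card ∧ (0 : ℤ) ∉ A.image (fun a => N * a) ∧
      ((A.image fun a => N * a).image G).card ≤ (A.image fun a => a * b a).card := by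
  set N : ℤ := ∏ a ∈ A, gq P (b a) with hN
  have hN0 : N ≠ 0 := prod_ne_zero_iff.2 fun a ha => gq_ne_zero hP (hb a ha)
  have hdiv : ∀ a ∈ A, gq P (b a) ∣ N := fun a ha => dvd_prod_of_mem (fun a => gq P (b a)) ha
  have hane : ∀ a ∈ A, a ≠ 0 := fun a ha h => h0 (h ▸ ha)
  have hq : ∀ a : ℤ, N * a / N = a := fun a => Int.mul_ediv_cancel_left a hN0
  refine ⟨N, fun x => gp P (x / N) * (N / gq P (b (x / N))),
    fun x => gq P (x / N * b (x / N)), hN0, ⟨hP, ?_, ?_⟩, ?_, ?_, ?_, ?_⟩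
  · intro x hx
    obtain ⟨a, ha, rfl⟩ := mem_image.1 hx
    simp only [hq]
    rw [gq_mul hP (hane a ha) (hb a ha)]
    have h1 := eq_gp_mul_gq hP (hane a ha)
    have h2 : N / gq P (b a) * gq P (b a) = N := Int.ediv_mul_cancel (hdiv a ha)
    calc N * a = (N / gq P (b a) * gq P (b a)) * (gp P a * gq P a) := by rw [h2, ← h1]
      _ = _ := by ring
  · intro p hp x hx
    obtain ⟨a, ha, rfl⟩ := mem_image.1 hx
    simp only [hq]
    rw [fa_gq hP (mul_ne_zero (hane a ha) (hb a ha)), if_pos hp]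
  · intro U hU
    refine (ce_const U _ _ ?_).le
    intro x hx y hy hxy
    obtain ⟨a, ha, rfl⟩ := mem_image.1 (hU hx)
    obtain ⟨a', ha', rfl⟩ := mem_image.1 (hU hy)
    simp only [hq]
    have h1 : ∀ p ∈ P, fa a p = fa a' p := by
      intro p hp
      have h2 := (gp_eq_iff hP).1 hxy p hp
      rw [fa_mul hN0 (hane a ha), fa_mul hN0 (hane a' ha')] at h2
      omega
    rw [hdet a ha a' ha' h1, (gp_eq_iff hP).2 h1]
  · exact card_image_of_injective _ fun x y hxy => mul_left_cancel₀ hN0 hxy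
  · intro h
    obtain ⟨a, ha, hNa⟩ := mem_image.1 h
    rcases mul_eq_zero.1 hNa with h1 | h1
    · exact hN0 h1
    · exact hane a ha h1
  · have h1 : ((A.image fun a => N * a).image fun x => gq P (x / N * b (x / N))) =
        (A.image fun a => a * b a).image (gq P) := by
      rw [image_image, image_image]
      refine image_congr fun a _ => ?_
      simp only [Function.comp, hq]
    rw [h1]
    exact card_image_le

end Pool.Agent.T2H12.KN
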