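import Mathlib
import Pool.Agent.T2H12.KD.Main

/-!
# The product side in terms of a basis, and small classes (package BASIS)
-/

set_option autoImplicit false

namespace Pool.Agent.T2H12.KN

open Finset
open scoped Classical
open Pool.Agent.Y359.PE Pool.Agent.T2H12.KF Pool.Agent.T2H12.KD

/-- **The product side.** -/
theorem prod_basis (m : ℕ) (hm : 1 ≤ m) {η : ℝ} (hη : 0 < η) (hη1 : η ≤ 1) :
    ∃ C B : ℝ, 0 < C ∧ 0 ≤ B ∧ ∀ A : Finset ℤ, A.Nonempty → (0 : ℤ) ∉ A →
      ∃ P ⊆ pr A, (P.card : ℝ) ≤ C * Real.log A.card ∧ h A (wp P) ≤ Real.log A.card ∧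
        m * Real.log A.card - (m - 1) * h A (wp P) - η * Real.log A.card - B ≤
          Real.log (pk m A).card := by
  have hmr : (1 : ℝ) ≤ m := by exact_mod_cast hm
  set κ : ℝ := η / m ^ 2 with hκ
  have hκ0 : 0 < κ := by positivity
  have hκ1 : κ ≤ 1 := by
    rw [hκ, div_le_one (by positivity)]
    nlinarith
  set θ : ℝ := Real.exp (-(4 / κ)) with hθ
  have hθ0 : 0 < θ := Real.exp_pos _
  have h4κ : 4 ≤ 4 / κ := by
    rw [le_div_iff₀ hκ0]
    linarith
  have hθ1 : θ ≤ 1 / 3 := by
    have h1 : 3 ≤ Real.exp (4 / κ) := by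
      have := Real.add_one_le_exp (4 / κ)
      linarith
    rw [hθ, Real.exp_neg, ← one_div]
    exact one_div_le_one_div_of_le (by norm_num) h1
  have hlθ : Real.log (1 / θ) = 4 / κ := by
    rw [hθ, one_div, Real.log_inv, Real.log_exp]
    ring
  set τ₀ : ℝ := κ * θ / (2 * m) with hτ₀
  have hτ₀0 : 0 < τ₀ := by positivity
  have hsum : 2 / Real.log (1 / θ) + m * τ₀ / θ = κ := by
    rw [hlθ, hτ₀]
    field_simp
    ring
  have hl2 : 0 < Real.log 2 := Real.log_pos (by norm_num)
  refine ⟨1 / τ₀, m * Real.log 2, by positivity, by positivity, ?_⟩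
  intro A hA h0
  have hAc : (1 : ℝ) ≤ A.card := by exact_mod_cast card_pos.2 hA
  set a := Real.log A.card with ha
  have ha0 : 0 ≤ a := Real.log_nonneg hAc
  obtain ⟨P, hPA, hP1, hP2⟩ := exists_basis A τ₀
  have hH0 := h_nonneg A (wp P)
  have hHa : h A (wp P) ≤ a := h_le_log_card A (wp P)
  refine ⟨P, hPA, ?_, hHa, ?_⟩
  · rw [div_mul_eq_mul_div, one_mul, le_div_iff₀ hτ₀0]
    linarith
  · have h1 := prod_lab A hA h0 P hτ₀0.le hθ0 hθ1 m (by rw [hsum]; exact hκ1) hP2 m hm le_rfl
    have e1 : 1 - 2 / Real.log (1 / θ) - m * τ₀ / θ = 1 - κ := by linarith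
    rw [e1] at h1
    set c := (1 - κ) ^ (m - 1) with hc
    have hc0 : 0 ≤ c := pow_nonneg (by linarith) _
    have hc1 : c ≤ 1 := pow_le_one₀ (by linarith) (by linarith)
    have hbern : 1 - (m : ℝ) * κ ≤ c := by
      have h2 := one_add_mul_le_pow (show (-2 : ℝ) ≤ -κ by linarith) (m - 1)
      have h3 : ((m - 1 : ℕ) : ℝ) ≤ m := by exact_mod_cast Nat.sub_le _ _
      have h4 : 1 - (m : ℝ) * κ ≤ 1 + ((m - 1 : ℕ) : ℝ) * (-κ) := by nlinarith
      rw [hc, sub_eq_add_neg 1 κ]
      exact h4.trans h2
    set D := a - Real.log 2 - h A (wp P) with hD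
    have hDa : D ≤ a := by linarith
    have h2 : D - m * κ * a ≤ c * D := by
      rcases le_or_gt 0 D with h3 | h3
      · have h4 := mul_le_mul_of_nonneg_right hbern h3
        have h5 : (m : ℝ) * κ * D ≤ m * κ * a := mul_le_mul_of_nonneg_left hDa (by positivity)
        linarith
      · have h4 : 0 ≤ (m : ℝ) * κ * a := by positivity
        nlinarith
    have h3 : (m : ℝ) * κ * a * m ≤ η * a := by
      have h5 : κ * m ^ 2 = η := by
        rw [hκ]
        field_simp
      have h6 : (m : ℝ) * κ * a * m = κ * m ^ 2 * a := by ring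
      rw [h6, h5]
    have h4 := mul_le_mul_of_nonneg_right h2 (show (0 : ℝ) ≤ m by positivity)
    have h6 : c * m * D = c * D * m := by ring
    rw [h6] at h1
    have h7 : D * m = m * a - m * Real.log 2 - m * h A (wp P) := by
      rw [hD]
      ring
    linarith

/-- many classes which are not too large -/
theorem small_classes {α β : Type} (A : Finset α) (hA : A.Nonempty) (f : α → β) {κ : ℝ}
    (hκ : 0 < κ) (hκ1 : κ ≤ 1) :
    ∃ A' ⊆ A, κ / 2 * A.card ≤ A'.card ∧
      κ / 2 * Real.exp (h A f - κ * Real.log A.card) ≤ ((A'.image f).card : ℝ) := by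
  classical
  have hAc : (1 : ℝ) ≤ A.card := by exact_mod_cast card_pos.2 hA
  have hAc0 : (0 : ℝ) < A.card := by linarith
  set L := Real.log A.card with hL
  have hL0 : 0 ≤ L := Real.log_nonneg hAc
  have hexpL : Real.exp L = A.card := Real.exp_log hAc0
  set H := h A f with hH
  have hH0 : 0 ≤ H := h_nonneg A f
  have hHL : H ≤ L := h_le_log_card A f
  set A' := A.filter fun a => Real.log (fc A f a) ≤ L - H + κ * L with hA'
  have hsub : A' ⊆ A := filter_subset _ _
  have hsumH : ∑ x ∈ A, (L - Real.log (fc A f x)) = H * A.card := by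
    rw [hH]
    unfold h
    rw [div_mul_cancel₀ _ hAc0.ne']
  have hmark : κ * L * A.card ≤ A'.card * (L - H + κ * L) := by
    have h1 : ∑ x ∈ A, (L - Real.log (fc A f x)) ≤
        ∑ x ∈ A, (if x ∈ A' then L else H - κ * L) := by
      refine sum_le_sum fun x hx => ?_
      by_cases hx' : x ∈ A'
      · rw [if_pos hx']
        have h2 : (1 : ℝ) ≤ fc A f x := by exact_mod_cast fc_pos (f := f) hx
        have := Real.log_nonneg h2
        linarith
      · rw [if_neg hx']
        have h2 : ¬ Real.log (fc A f x) ≤ L - H + κ * L := fun h3 => hx' (mem_filter.2 ⟨hx, h3⟩)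
        push Not at h2
        linarith
    rw [hsumH, sum_ite, filter_mem_eq_inter, inter_eq_right.2 hsub, sum_const, sum_const,
      nsmul_eq_mul, nsmul_eq_mul] at h1
    have h2 : ((A.filter fun x => x ∉ A').card : ℝ) = A.card - A'.card := by
      have h3 : A.filter (fun x => x ∉ A') = A \ A' := by
        ext x
        simp [mem_sdiff]
      rw [h3, card_sdiff_of_subset hsub, Nat.cast_sub (card_le_card hsub)]
    rw [h2] at h1
    linarith
  have hcard : κ / 2 * A.card ≤ A'.card := by
    rcases hL0.eq_or_lt with h1 | h1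
    · -- `L = 0`
      have h2 : A' = A := by
        refine filter_true_of_mem fun x hx => ?_
        have h3 : (fc A f x : ℝ) ≤ A.card := by exact_mod_cast fc_le
        have h4 := Real.log_le_log (fc_posR (f := f) hx) h3
        rw [← h1]
        rw [← hL, ← h1] at h4
        rw [← h1] at hHL
        linarith
      rw [h2]
      nlinarith
    · have h2 : (0 : ℝ) ≤ A'.card := Nat.cast_nonneg _
      have h3 : A'.card * (L - H + κ * L) ≤ A'.card * (2 * L) :=
        mul_le_mul_of_nonneg_left (by nlinarith) h2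
      have h4 : κ * A.card * L ≤ 2 * A'.card * L := by linarith
      have h5 := le_of_mul_le_mul_right h4 h1
      linarith
  refine ⟨A', hsub, hcard, ?_⟩
  have hfib : (A'.card : ℝ) ≤ ((A'.image f).card : ℝ) * Real.exp (L - H + κ * L) := by
    rw [card_eq_sum_card_image f A']
    push_cast
    calc _ ≤ ∑ _b ∈ A'.image f, Real.exp (L - H + κ * L) := by
          refine sum_le_sum fun b hb => ?_
          obtain ⟨x, hx, rfl⟩ := mem_image.1 hb
          have h1 : ((A'.filter fun y => f y = f x).card : ℝ) ≤ fc A f x := by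
            unfold fc cl
            exact_mod_cast card_le_card (filter_subset_filter _ hsub)
          refine h1.trans ?_
          rw [← Real.exp_log (fc_posR (f := f) (hsub hx))]
          exact Real.exp_le_exp.2 (mem_filter.1 hx).2
      _ = _ := by rw [sum_const, nsmul_eq_mul]
  have h1 : κ / 2 * A.card ≤ ((A'.image f).card : ℝ) * Real.exp (L - H + κ * L) := hcard.trans hfib
  have h2 := mul_le_mul_of_nonneg_right h1 (Real.exp_pos (-(L - H + κ * L))).le
  rw [mul_assoc, mul_assoc, ← Real.exp_add, add_neg_cancel, Real.exp_zero, mul_one] at h2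
  refine le_trans (le_of_eq ?_) h2
  rw [← hexpL, ← Real.exp_add]
  congr 2
  ring

end Pool.Agent.T2H12.KN
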