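import Mathlib

/-!
# The covering lemma (package COVER)
-/

set_option autoImplicit false

namespace Pool.Agent.T2H12.KN

open Finset
open scoped Classical

theorem cover_aux {α M ρ : Type} [AddCommGroup M] (A : Finset α) (s : α → M) (W : Finset M)
    (sig : ρ → M) (X : Finset ρ) (hW : W.Nonempty) :
    ∀ U : Finset α, ∃ J : Finset M,
      2 * (U.filter fun a => ∀ D ∈ J, D - s a ∉ W).card ≤ A.card ∧
      (∑ D ∈ J, (X.filter fun x => sig x = D).card) * (A.card * W.card) +
        2 * X.card * (U.filter fun a => ∀ D ∈ J, D - s a ∉ W).card ≤ 2 * X.card * U.card := by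
  intro U
  induction U using Finset.strongInduction with
  | H U ih =>
    by_cases hU : 2 * U.card ≤ A.card
    · refine ⟨∅, ?_, ?_⟩
      · simpa using hU
      · simp
    · have hUne : U.Nonempty := by
        rw [← Finset.card_pos]
        omega
      set T : Finset M := (U ×ˢ W).image (fun p => s p.1 + p.2) with hT
      set c : M → ℕ := fun D => (U.filter fun a => D - s a ∈ W).card with hc
      set x : M → ℕ := fun D => (X.filter fun y => sig y = D).card with hx
      have hsum : ∑ D ∈ T, c D = U.card * W.card := by
        rw [← Finset.card_product, Finset.card_eq_sum_card_image (fun p : α × M => s p.1 + p.2)]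
        refine Finset.sum_congr rfl fun D _ => ?_
        refine Finset.card_nbij' (fun a => (a, D - s a)) (fun p => p.1) ?_ ?_ ?_ ?_
        · intro a ha
          simp only [Finset.coe_filter, Set.mem_ofPred_eq] at ha
          simp only [Finset.coe_filter, Finset.mem_product, Set.mem_ofPred_eq]
          exact ⟨⟨ha.1, ha.2⟩, by abel⟩
        · rintro ⟨a, w⟩ hp
          simp only [Finset.coe_filter, Finset.mem_product, Set.mem_ofPred_eq] at hp
          simp only [Finset.coe_filter, Set.mem_ofPred_eq]
          refine ⟨hp.1.1, ?_⟩
          rw [← hp.2, add_sub_cancel_left]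
          exact hp.1.2
        · intro a _
          rfl
        · rintro ⟨a, w⟩ hp
          simp only [Finset.coe_filter, Finset.mem_product, Set.mem_ofPred_eq] at hp
          simp only [Prod.mk.injEq, true_and]
          rw [← hp.2, add_sub_cancel_left]
      have hxs : ∑ D ∈ T, x D ≤ X.card := by
        have h1 : ∑ D ∈ T, x D = (T.biUnion fun D => X.filter fun y => sig y = D).card := by
          rw [Finset.card_biUnion]
          intro D _ D' _ hne
          rw [Function.onFun, Finset.disjoint_left]
          intro y hy hy'
          rw [Finset.mem_filter] at hy hy'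
          exact hne (hy.2.symm.trans hy'.2)
        rw [h1]
        apply Finset.card_le_card
        intro y hy
        rw [Finset.mem_biUnion] at hy
        obtain ⟨D, _, hy⟩ := hy
        exact (Finset.mem_filter.1 hy).1
      have hTne : T.Nonempty := (hUne.product hW).image _
      obtain ⟨D, hDT, hD⟩ : ∃ D ∈ T, x D * (U.card * W.card) ≤ X.card * c D := by
        by_contra hcon
        push Not at hcon
        have h1 := Finset.sum_lt_sum_of_nonempty hTne hcon
        rw [← Finset.mul_sum, ← Finset.sum_mul, hsum] at h1
        exact absurd (Nat.mul_le_mul_right _ hxs) (not_le.2 h1)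
      have hcpos : ∃ a ∈ U, D - s a ∈ W := by
        rw [hT, Finset.mem_image] at hDT
        obtain ⟨⟨a, w⟩, hp, hD'⟩ := hDT
        rw [Finset.mem_product] at hp
        refine ⟨a, hp.1, ?_⟩
        rw [← hD', add_sub_cancel_left]
        exact hp.2
      set U' := U.filter fun a => D - s a ∉ W with hU'
      have hss : U' ⊂ U := by
        obtain ⟨a, ha, haD⟩ := hcpos
        rw [Finset.ssubset_iff_of_subset (Finset.filter_subset _ _)]
        refine ⟨a, ha, ?_⟩
        intro h
        exact (Finset.mem_filter.1 h).2 haD
      have hcard : c D + U'.card = U.card := Finset.card_filter_add_card_filter_not _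
      obtain ⟨J', h1, h2⟩ := ih U' hss
      have hUnc : (U.filter fun a => ∀ E ∈ insert D J', E - s a ∉ W) =
          U'.filter fun a => ∀ E ∈ J', E - s a ∉ W := by
        ext a
        simp only [hU', Finset.mem_filter, Finset.mem_insert, forall_eq_or_imp]
        tauto
      refine ⟨insert D J', ?_, ?_⟩
      · rw [hUnc]
        exact h1
      · rw [hUnc]
        have h3 : ∑ E ∈ insert D J', x E ≤ x D + ∑ E ∈ J', x E := by
          by_cases hm : D ∈ J'
          · rw [Finset.insert_eq_of_mem hm]
            omega
          · rw [Finset.sum_insert hm]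
        have h4 : x D * (A.card * W.card) ≤ 2 * (X.card * c D) := by
          calc x D * (A.card * W.card) ≤ x D * ((2 * U.card) * W.card) := by
                apply Nat.mul_le_mul_left
                apply Nat.mul_le_mul_right
                omega
            _ = 2 * (x D * (U.card * W.card)) := by ring
            _ ≤ 2 * (X.card * c D) := Nat.mul_le_mul_left _ hD
        have h5 := Nat.mul_le_mul_right (A.card * W.card) h3
        have h6 : 2 * X.card * U.card = 2 * (X.card * c D) + 2 * X.card * U'.card := by
          rw [← hcard]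
          ring
        rw [h6]
        have h7 : (x D + ∑ E ∈ J', x E) * (A.card * W.card) =
            x D * (A.card * W.card) + (∑ E ∈ J', x E) * (A.card * W.card) := by ring
        rw [h7] at h5
        have h2' : (∑ E ∈ J', x E) * (A.card * W.card) +
          2 * X.card * (U'.filter fun a => ∀ D ∈ J', D - s a ∉ W).card ≤ 2 * X.card * U'.card := h2
        show (∑ E ∈ insert D J', x E) * (A.card * W.card) + _ ≤ _
        omega

/-- **The covering lemma.** -/
theorem cover {α M ρ : Type} [AddCommGroup M] (A : Finset α) (s : α → M) (W : Finset M)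
    (f : α → M → ρ) (sig : ρ → M) (hA : A.Nonempty) (hW : W.Nonempty)
    (hsig : ∀ a ∈ A, ∀ w ∈ W, sig (f a w) = s a + w) (X : Finset ρ)
    (hX : ∀ a ∈ A, ∀ w ∈ W, f a w ∈ X) :
    ∃ (A' : Finset α) (D : M → M), A' ⊆ A ∧ A.card ≤ 2 * A'.card ∧
      (∀ a ∈ A', D (s a) - s a ∈ W) ∧
      (A'.image fun a => f a (D (s a) - s a)).card * W.card ≤ 2 * X.card := by
  obtain ⟨J, h1, h2⟩ := cover_aux A s W sig X hW A
  set A' := A.filter fun a => ¬ ∀ D ∈ J, D - s a ∉ W with hA'
  set Dc : M → M := fun σ => if h : ∃ D ∈ J, D - σ ∈ W then h.choose else 0 with hDc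
  have hDs : ∀ a ∈ A', Dc (s a) ∈ J ∧ Dc (s a) - s a ∈ W := by
    intro a ha
    have h3 : ∃ D ∈ J, D - s a ∈ W := by
      have := (Finset.mem_filter.1 ha).2
      push Not at this
      exact this
    have h4 : Dc (s a) = h3.choose := by
      rw [hDc]
      exact dif_pos h3
    rw [h4]
    exact h3.choose_spec
  have hcard : (A.filter fun a => ∀ D ∈ J, D - s a ∉ W).card + A'.card = A.card :=
    Finset.card_filter_add_card_filter_not _
  refine ⟨A', Dc, Finset.filter_subset _ _, by omega, fun a ha => (hDs a ha).2, ?_⟩
  have h5 : (A'.image fun a => f a (Dc (s a) - s a)) ⊆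
      J.biUnion fun D => X.filter fun y => sig y = D := by
    intro y hy
    rw [Finset.mem_image] at hy
    obtain ⟨a, ha, rfl⟩ := hy
    have haA : a ∈ A := Finset.filter_subset _ _ ha
    rw [Finset.mem_biUnion]
    refine ⟨Dc (s a), (hDs a ha).1, ?_⟩
    rw [Finset.mem_filter]
    refine ⟨hX a haA _ (hDs a ha).2, ?_⟩
    rw [hsig a haA _ (hDs a ha).2]
    abel
  have h6 : (A'.image fun a => f a (Dc (s a) - s a)).card ≤
      ∑ D ∈ J, (X.filter fun x => sig x = D).card :=
    (Finset.card_le_card h5).trans Finset.card_biUnion_le
  have h7 : (∑ D ∈ J, (X.filter fun x => sig x = D).card) * W.card * A.card ≤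
      2 * X.card * A.card := by
    calc (∑ D ∈ J, (X.filter fun x => sig x = D).card) * W.card * A.card
        = (∑ D ∈ J, (X.filter fun x => sig x = D).card) * (A.card * W.card) := by ring
      _ ≤ 2 * X.card * A.card := le_trans (Nat.le_add_right _ _) h2
  have h8 := Nat.le_of_mul_le_mul_right h7 hA.card_pos
  exact (Nat.mul_le_mul_right _ h6).trans h8

end Pool.Agent.T2H12.KN
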