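import Mathlib
import Pool.Agent.T2H12.KN.Cover
import Pool.Agent.T2H12.KN.Basis
import Pool.Agent.T2H12.KN.Scale
import Pool.Agent.T2H12.KM.Fin4

/-!
# Few products: assembly
-/

set_option autoImplicit false

namespace Pool.Agent.T2H12.KN

open Finset
open scoped Classical
open Pool.Agent.Y359.PE Pool.Agent.T2H12.KF Pool.Agent.T2H12.KD Pool.Agent.T2H12.KG
open Pool.Agent.T2H12.KH Pool.Agent.T2H12.KM

lemma ne_of_mem_pk {k : ℕ} {A : Finset ℤ} (h0 : (0 : ℤ) ∉ A) {x : ℤ} (hx : x ∈ pk k A) :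
    x ≠ 0 := by
  obtain ⟨f, hf, rfl⟩ := mem_image.1 hx
  exact prod_ne_zero_iff.2 fun i _ h => h0 (h ▸ Fintype.mem_piFinset.1 hf i)

lemma mul_mem_pk {k : ℕ} {A : Finset ℤ} {a x : ℤ} (ha : a ∈ A) (hx : x ∈ pk k A) :
    a * x ∈ pk (k + 1) A := by
  obtain ⟨f, hf, rfl⟩ := mem_image.1 hx
  refine mem_image.2 ⟨Fin.cons a f, Fintype.mem_piFinset.2 fun i => ?_, ?_⟩
  · refine Fin.cases ?_ (fun j => ?_) i
    · simpa using ha
    · simpa using Fintype.mem_piFinset.1 hf j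
  · rw [Fin.prod_univ_succ]
    simp

lemma wp_mul {P : Finset ℕ} {a b : ℤ} (ha : a ≠ 0) (hb : b ≠ 0) :
    wp P (a * b) = wp P a + wp P b := by
  funext p
  simp only [wp, Pool.Agent.Y359.PE.mk, va, Pi.add_apply, fa_mul ha hb]
  split_ifs
  · push_cast
    rfl
  · rfl

/-- a dilation -/
lemma dilateSum_smul (k : ℕ) (l : ℕ → ℕ) (N : ℤ) (A B : Finset ℤ) :
    (dilateSum k l (A.image fun a => N * a) (B.image fun b => N * b)).card ≤
      (dilateSum k l A B).card := by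
  have h1 : dilateSum k l (A.image fun a => N * a) (B.image fun b => N * b) ⊆
      (dilateSum k l A B).image fun x => N * x := by
    intro x hx
    unfold dilateSum at hx ⊢
    rw [mem_image] at hx
    obtain ⟨⟨f, b⟩, hfb, rfl⟩ := hx
    obtain ⟨hf, hb⟩ := mem_product.1 hfb
    have hf' : ∀ i, ∃ a ∈ A, N * a = f i := fun i =>
      mem_image.1 (Fintype.mem_piFinset.1 hf i)
    choose g hg1 hg2 using hf'
    obtain ⟨b', hb', hbb⟩ := mem_image.1 hb
    rw [mem_image]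
    refine ⟨∑ i : Fin k, (l (i : ℕ) : ℤ) * g i + b', ?_, ?_⟩
    · rw [mem_image]
      exact ⟨(g, b'), mem_product.2 ⟨Fintype.mem_piFinset.2 hg1, hb'⟩, rfl⟩
    · simp only at hbb ⊢
      rw [← hbb, mul_add, mul_sum]
      congr 1
      refine sum_congr rfl fun i _ => ?_
      rw [← hg2 i]
      ring
  exact (card_le_card h1).trans card_image_le

lemma dilateSum_mono (k : ℕ) (l : ℕ → ℕ) {A A' : Finset ℤ} (h : A' ⊆ A) (B : Finset ℤ) :
    dilateSum k l A' B ⊆ dilateSum k l A B := by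
  unfold dilateSum
  exact image_subset_image (product_subset_product (Fintype.piFinset_subset _ _ fun _ => h)
    (Subset.refl _))

/-- **Few products: the signals.** -/
theorem few_sig (m : ℕ) (hm : 1 ≤ m) (P : Finset ℕ) (hP : ∀ p ∈ P, p.Prime) (A : Finset ℤ)
    (hA : A.Nonempty) (h0 : (0 : ℤ) ∉ A) :
    ∃ A' ⊆ A, A.card ≤ 2 * A'.card ∧ ∃ (N : ℤ) (γ G : ℤ → ℤ), N ≠ 0 ∧
      Dec P γ G (A'.image fun a => N * a) ∧
      (∀ U ⊆ A'.image fun a => N * a, ce U (gp P) γ ≤ 0) ∧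
      (A'.image fun a => N * a).card = A'.card ∧ (0 : ℤ) ∉ A'.image (fun a => N * a) ∧
      ((A'.image fun a => N * a).image G).card * (A.image (wp P)).card ≤
        2 * (pk (m + 1) A).card := by
  have hne : ∀ a ∈ A, a ≠ 0 := fun a ha h => h0 (h ▸ ha)
  set W : Finset (ℕ → ℤ) := (pk m A).image (wp P) with hW
  have hWn : W.Nonempty := (pk_nonempty hA).image _
  have hβ : ∀ w : ℕ → ℤ, ∃ b : ℤ, b ≠ 0 ∧ (w ∈ W → b ∈ pk m A ∧ wp P b = w) := by
    intro w
    by_cases hw : w ∈ W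
    · obtain ⟨b, hb, hbw⟩ := mem_image.1 hw
      exact ⟨b, ne_of_mem_pk h0 hb, fun _ => ⟨hb, hbw⟩⟩
    · exact ⟨1, one_ne_zero, fun h => absurd h hw⟩
  choose β hβ0 hβ1 using hβ
  obtain ⟨A', D, hA', hcard, hD, hcnt⟩ := cover A (wp P) W (fun a w => a * β w) (wp P) hA hWn
    (by
      intro a ha w hw
      rw [wp_mul (hne a ha) (hβ0 w), (hβ1 w hw).2]) (pk (m + 1) A)
    (fun a ha w hw => mul_mem_pk ha (hβ1 w hw).1)
  have h0' : (0 : ℤ) ∉ A' := fun h => h0 (hA' h)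
  obtain ⟨N, γ, G, hN, hdec, hce, hc, hz, hG⟩ := scale P hP A' h0'
    (fun a => β (D (wp P a) - wp P a)) (fun a _ => hβ0 _) (by
      intro a _ a' _ h
      have h1 : wp P a = wp P a' := wp_eq_iff.2 h
      simp only [h1])
  refine ⟨A', hA', hcard, N, γ, G, hN, hdec, hce, hc, hz, ?_⟩
  have hWc : (A.image (wp P)).card ≤ W.card := by
    obtain ⟨n, rfl⟩ : ∃ n, m = n + 1 := ⟨m - 1, by omega⟩
    obtain ⟨x, hx⟩ := pk_nonempty (k := n) hA
    have h1 : ((A.image (wp P)).image fun w => w + wp P x).card = (A.image (wp P)).card :=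
      card_image_of_injective _ fun y z h => add_right_cancel h
    rw [← h1]
    refine card_le_card fun w hw => ?_
    obtain ⟨u, hu, rfl⟩ := mem_image.1 hw
    obtain ⟨a, ha, rfl⟩ := mem_image.1 hu
    exact mem_image.2 ⟨a * x, mul_mem_pk ha hx, wp_mul (hne a ha) (ne_of_mem_pk h0 hx)⟩
  have hinst : ∀ i₁ i₂ : DecidableEq ℤ,
      @Finset.image ℤ ℤ i₁ (fun a => a * β (D (wp P a) - wp P a)) A' =
      @Finset.image ℤ ℤ i₂ (fun a => a * β (D (wp P a) - wp P a)) A' :=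
    fun i₁ i₂ => by rw [Subsingleton.elim i₁ i₂]
  rw [hinst _ Int.instDecidableEq] at hcnt
  calc ((A'.image fun a => N * a).image G).card * (A.image (wp P)).card
      ≤ (A'.image fun a => a * β (D (wp P a) - wp P a)).card * W.card := Nat.mul_le_mul hG hWc
    _ ≤ _ := hcnt

/-- **Few products, many sums.** -/
theorem main5 (m : ℕ) (hm : 1 ≤ m) (k : ℕ) {η ε : ℝ} (hη : 0 < η) (hη1 : η ≤ 1) (hε : 0 < ε)
    (hε1 : ε ≤ 1) :
    ∃ (K : ℕ) (c : ℝ), 0 < c ∧ ∀ A : Finset ℤ, A.Nonempty → (0 : ℤ) ∉ A →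
      ((pk (m + 1) A).card : ℝ) ≤ (A.card : ℝ) ^ (2 - 1 / ((m : ℝ) + 1) - η) →
      ∀ B : Finset ℤ, B.Nonempty → ∃ l : ℕ → ℕ, (∀ i, 1 ≤ l i ∧ l i ≤ K) ∧
        c * ((A.card : ℝ) ^ k * B.card) ^ (1 - ε) ≤ (dilateSum k l A B).card := by
  have hmr : (1 : ℝ) ≤ m := by exact_mod_cast hm
  obtain ⟨C₀, B₀, hC₀, hB₀, hbasis⟩ := prod_basis (m + 1) (by omega) (η := η / 2) (by linarith)
    (by linarith)
  obtain ⟨K, δ, c, hδ, hc, hsum⟩ := sum_fin4 k (κ := η / 2) (by linarith) hε hε1 (2 * C₀)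
  have hl2 : 0 < Real.log 2 := Real.log_pos (by norm_num)
  set a₀ : ℝ := 2 / η * (2 * Real.log 2 + B₀) with ha₀
  have ha₀0 : 0 < a₀ := by positivity
  have ha₀2 : 2 * Real.log 2 ≤ a₀ := by
    have h1 : 1 ≤ 2 / η := by
      rw [le_div_iff₀ hη]
      linarith
    have h2 : 0 < 2 * Real.log 2 + B₀ := by linarith
    nlinarith
  refine ⟨max K 1, min (c * ((1 / 2 : ℝ) ^ k) ^ (1 - ε)) (Real.exp (-(k * a₀))), by positivity, ?_⟩
  intro A hA h0 hfew B hB
  have hAc : (1 : ℝ) ≤ A.card := by exact_mod_cast card_pos.2 hA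
  have hA0 : (0 : ℝ) < A.card := by linarith
  have hBc : (1 : ℝ) ≤ B.card := by exact_mod_cast card_pos.2 hB
  have hB0 : (0 : ℝ) < B.card := by linarith
  set a := Real.log A.card with had
  have ha : 0 ≤ a := Real.log_nonneg hAc
  have hk0 : (0 : ℝ) ≤ k := Nat.cast_nonneg k
  rcases lt_or_ge a a₀ with haa | haa
  · -- small sets
    refine ⟨fun _ => 1, fun _ => ⟨le_rfl, le_max_right _ _⟩, ?_⟩
    have h1 : (B.card : ℝ) ≤ (dilateSum k (fun _ => 1) A B).card := by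
      exact_mod_cast dilateSum_card_ge hA k _
    refine le_trans ?_ h1
    have hX1 : 1 ≤ (A.card : ℝ) ^ k * B.card := by
      have := one_le_pow₀ hAc (n := k)
      nlinarith
    have h2 : ((A.card : ℝ) ^ k * B.card) ^ (1 - ε) ≤ (A.card : ℝ) ^ k * B.card := by
      conv_rhs => rw [← Real.rpow_one ((A.card : ℝ) ^ k * B.card)]
      exact Real.rpow_le_rpow_of_exponent_le hX1 (by linarith)
    have h3 : (A.card : ℝ) ^ k ≤ Real.exp (k * a₀) := by
      rw [← Real.exp_log (by positivity : (0 : ℝ) < (A.card : ℝ) ^ k), Real.log_pow]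
      exact Real.exp_le_exp.2 (mul_le_mul_of_nonneg_left haa.le hk0)
    calc min (c * ((1 / 2 : ℝ) ^ k) ^ (1 - ε)) (Real.exp (-(k * a₀))) *
          ((A.card : ℝ) ^ k * B.card) ^ (1 - ε)
        ≤ Real.exp (-(k * a₀)) * (Real.exp (k * a₀) * B.card) := by
          refine mul_le_mul (min_le_right _ _) (h2.trans ?_) (by positivity) (by positivity)
          exact mul_le_mul_of_nonneg_right h3 hB0.le
      _ = B.card := by
          rw [← mul_assoc, ← Real.exp_add]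
          simp
  -- large sets
  obtain ⟨P, hPA, hPc, hHa, hprod⟩ := hbasis A hA h0
  have hPp : ∀ p ∈ P, p.Prime := fun p hp => prime_of_mem_pr (hPA hp)
  obtain ⟨A', hA', hcard, N, γ, G, hN, hdec, hce, hc1, hz, hG⟩ := few_sig m hm P hPp A hA h0
  set A₁ := A'.image fun a => N * a with hA₁
  have hA'c : (A.card : ℝ) ≤ 2 * A'.card := by exact_mod_cast hcard
  have hA'0 : (0 : ℝ) < A'.card := by linarith
  have hA'n : A'.Nonempty := card_pos.1 (by exact_mod_cast hA'0)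
  have hA₁n : A₁.Nonempty := hA'n.image _
  have hA₁c : (A₁.card : ℝ) = A'.card := by exact_mod_cast hc1
  set a₁ := Real.log A₁.card with ha₁
  have ha₁a : a - Real.log 2 ≤ a₁ := by
    have h1 := Real.log_le_log hA0 hA'c
    rw [Real.log_mul (by norm_num) hA'0.ne'] at h1
    rw [ha₁, hA₁c]
    linarith
  have hpk0 : (0 : ℝ) < (pk (m + 1) A).card := by exact_mod_cast card_pos.2 (pk_nonempty hA)
  have hlfew : Real.log (pk (m + 1) A).card ≤ (2 - 1 / ((m : ℝ) + 1) - η) * a := by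
    have h1 := Real.log_le_log hpk0 hfew
    rwa [Real.log_rpow hA0] at h1
  set H := h A (wp P) with hH
  have hHlow : (1 - 1 / ((m : ℝ) + 1)) * a - B₀ ≤ H := by
    push_cast at hprod
    have e1 : ((m : ℝ) + 1 - 1) = m := by ring
    rw [e1] at hprod
    have h1 : ((m : ℝ) + 1) * a - η / 2 * a - B₀ - (2 - 1 / ((m : ℝ) + 1) - η) * a ≤ m * H := by
      linarith
    have h2 : ((m : ℝ) + 1) - 2 + 1 / ((m : ℝ) + 1) = m * (1 - 1 / ((m : ℝ) + 1)) := by
      field_simp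
      ring
    have h3 : m * ((1 - 1 / ((m : ℝ) + 1)) * a) + η / 2 * a - B₀ ≤ m * H := by
      have h4 : ((m : ℝ) + 1) * a - η / 2 * a - B₀ - (2 - 1 / ((m : ℝ) + 1) - η) * a =
          ((m : ℝ) + 1 - 2 + 1 / ((m : ℝ) + 1)) * a + η / 2 * a - B₀ := by ring
      rw [h4, h2] at h1
      linarith
    have h5 : 0 ≤ η / 2 * a := by positivity
    have h6 : (m : ℝ) * ((1 - 1 / ((m : ℝ) + 1)) * a - B₀) ≤ m * H := by
      have : (B₀ : ℝ) ≤ m * B₀ := by nlinarith
      linarith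
    exact le_of_mul_le_mul_left h6 (by linarith)
  have hWl : H ≤ Real.log (A.image (wp P)).card := h_le_log' hA (wp P)
  have hhG : h A₁ G ≤ (1 - η / 2) * a₁ := by
    have h1 : h A₁ G ≤ Real.log (A₁.image G).card := h_le_log' hA₁n G
    have hI0 : (0 : ℝ) < (A₁.image G).card := by exact_mod_cast card_pos.2 (hA₁n.image _)
    have hW0 : (0 : ℝ) < (A.image (wp P)).card := by exact_mod_cast card_pos.2 (hA.image _)
    have h2 : ((A₁.image G).card : ℝ) * (A.image (wp P)).card ≤ 2 * (pk (m + 1) A).card := by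
      exact_mod_cast hG
    have h3 := Real.log_le_log (mul_pos hI0 hW0) h2
    rw [Real.log_mul hI0.ne' hW0.ne', Real.log_mul (by norm_num) hpk0.ne'] at h3
    have h4 : h A₁ G ≤ Real.log 2 + (1 - η) * a + B₀ := by
      have h5 : (2 - 1 / ((m : ℝ) + 1) - η) * a - (1 - 1 / ((m : ℝ) + 1)) * a = (1 - η) * a := by
        ring
      linarith
    have h5 : (2 * Real.log 2 + B₀) * 2 ≤ η * a := by
      have h6 : 2 / η * (2 * Real.log 2 + B₀) ≤ a := haa
      have h7 := mul_le_mul_of_nonneg_left h6 hη.le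
      have h8 : η * (2 / η * (2 * Real.log 2 + B₀)) = (2 * Real.log 2 + B₀) * 2 := by
        field_simp
      rwa [h8] at h7
    have h6 : (1 - η / 2) * (a - Real.log 2) ≤ (1 - η / 2) * a₁ :=
      mul_le_mul_of_nonneg_left ha₁a (by linarith)
    have h7 : 0 ≤ η / 2 * Real.log 2 := by positivity
    nlinarith
  have hPc1 : (P.card : ℝ) ≤ 2 * C₀ * Real.log A₁.card := by
    refine hPc.trans ?_
    have h1 : a ≤ 2 * a₁ := by linarith
    have h2 := mul_le_mul_of_nonneg_left h1 hC₀.le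
    change C₀ * a ≤ 2 * C₀ * a₁
    linarith
  have hB1n : (B.image fun b => N * b).Nonempty := hB.image _
  have hB1c : (B.image fun b => N * b).card = B.card :=
    card_image_of_injective _ fun x y hxy => mul_left_cancel₀ hN hxy
  obtain ⟨l, hl, hbig⟩ := hsum A₁ P γ G hA₁n hz hdec (fun U hU => (hce U hU).trans (by
    have : 0 ≤ Real.log (A₁.card : ℝ) := log_card_nonneg A₁
    positivity)) hPc1 hhG (B.image fun b => N * b) hB1n
  refine ⟨l, fun i => ⟨(hl i).1, (hl i).2.trans (le_max_left _ _)⟩, ?_⟩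
  have h1 : ((dilateSum k l A₁ (B.image fun b => N * b)).card : ℝ) ≤ (dilateSum k l A B).card := by
    have h2 := dilateSum_smul k l N A' B
    have h3 := card_le_card (dilateSum_mono k l hA' B)
    exact_mod_cast h2.trans h3
  refine le_trans ?_ (hbig.trans h1)
  rw [hB1c, hA₁c]
  have h2 : (1 / 2 : ℝ) ^ k * ((A.card : ℝ) ^ k * B.card) ≤ (A'.card : ℝ) ^ k * B.card := by
    rw [← mul_assoc, ← mul_pow]
    refine mul_le_mul_of_nonneg_right ?_ hB0.le
    exact pow_le_pow_left₀ (by positivity) (by linarith) k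
  calc min (c * ((1 / 2 : ℝ) ^ k) ^ (1 - ε)) (Real.exp (-(k * a₀))) *
        ((A.card : ℝ) ^ k * B.card) ^ (1 - ε)
      ≤ c * ((1 / 2 : ℝ) ^ k) ^ (1 - ε) * ((A.card : ℝ) ^ k * B.card) ^ (1 - ε) :=
        mul_le_mul_of_nonneg_right (min_le_left _ _) (by positivity)
    _ = c * ((1 / 2 : ℝ) ^ k * ((A.card : ℝ) ^ k * B.card)) ^ (1 - ε) := by
        rw [mul_assoc, ← Real.mul_rpow (by positivity) (by positivity)]
    _ ≤ _ := mul_le_mul_of_nonneg_left (Real.rpow_le_rpow (by positivity) h2 (by linarith)) hc.le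

end Pool.Agent.T2H12.KN
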